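import Pool.Agent.H369.TH.Stm

set_option autoImplicit false

namespace Pool.Agent.H390.TH

open Pool.Agent.H369.TH PowerSeries

variable {Γ K : Type} [AddCommGroup Γ] [LinearOrder Γ] [IsOrderedAddMonoid Γ] [Field K]

/-- powers of the unit `x (1 + u)` -/
theorem unit_zpow {A : Type} [CommRing A] (x : Aˣ) (U : (PowerSeries A)ˣ)
    (hU : (U : PowerSeries A) = C (x : A) * (1 + X)) (m : ℤ) :
    ((U ^ m : (PowerSeries A)ˣ) : PowerSeries A) =
      C ((x ^ m : Aˣ) : A) * binomialSeries A m := by
  have hnat : ∀ n : ℕ, ((U ^ n : (PowerSeries A)ˣ) : PowerSeries A) =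
      C ((x ^ n : Aˣ) : A) * binomialSeries A (n : ℤ) := by
    intro n
    rw [Units.val_pow_eq_pow_val, hU, mul_pow, binomialSeries_nat, Units.val_pow_eq_pow_val, map_pow]
  obtain ⟨n, rfl | rfl⟩ := m.eq_nat_or_neg
  · rw [zpow_natCast, zpow_natCast]
    exact hnat n
  · have h1 : (C ((x ^ (-(n : ℤ)) : Aˣ) : A) * binomialSeries A (-(n : ℤ))) *
        ((U ^ n : (PowerSeries A)ˣ) : PowerSeries A) = 1 := by
      rw [hnat n]
      have e : C ((x ^ (-(n : ℤ)) : Aˣ) : A) * binomialSeries A (-(n : ℤ)) *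
          (C ((x ^ n : Aˣ) : A) * binomialSeries A (n : ℤ)) =
          (C (((x ^ (-(n : ℤ)) : Aˣ) : A) * ((x ^ n : Aˣ) : A))) *
            (binomialSeries A (-(n : ℤ)) * binomialSeries A (n : ℤ)) := by
        rw [map_mul]
        ring
      rw [e, ← binomialSeries_add, neg_add_cancel, binomialSeries_zero, mul_one, ← Units.val_mul,
        zpow_neg, zpow_natCast, inv_mul_cancel, Units.val_one, map_one]
    have h2 : (U ^ (-(n : ℤ)) : (PowerSeries A)ˣ) = (U ^ n)⁻¹ := by
      rw [zpow_neg, zpow_natCast]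
    rw [h2]
    symm
    exact Units.eq_inv_of_mul_eq_one_left (by rw [mul_comm]; exact h1)

theorem ph_single (ξ : Kˣ) (m : ℤ) (c : K) :
    ph ξ (AddMonoidAlgebra.single m c) =
      C (c * ((ξ ^ m : Kˣ) : K)) * binomialSeries K m := by
  unfold ph
  rw [RingHom.coe_coe, AddMonoidAlgebra.lift_single]
  have h1 : ((Units.coeHom (PowerSeries K)).comp (zpowersHom (PowerSeries K)ˣ (xiU ξ)))
      (Multiplicative.ofAdd m) = ((xiU ξ ^ m : (PowerSeries K)ˣ) : PowerSeries K) := rfl
  rw [h1, unit_zpow ξ (xiU ξ) (IsUnit.unit_spec _) m, smul_eq_C_mul, map_mul]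
  ring

theorem coeff_ph_single (ξ : Kˣ) (m : ℤ) (c : K) (n : ℕ) :
    coeff n (ph ξ (AddMonoidAlgebra.single m c)) =
      c * ((ξ ^ m : Kˣ) : K) * ((Ring.choose m n : ℤ) : K) := by
  rw [ph_single, coeff_C_mul, binomialSeries_coeff, zsmul_one]

theorem dl_single (l : ℕ) (m : ℤ) (c : K) :
    dl l (AddMonoidAlgebra.single m c) =
      AddMonoidAlgebra.single m (((Ring.choose m l : ℤ) : K) * c) := by
  classical
  ext m'
  rw [coeff_dl, AddMonoidAlgebra.coeff_single, AddMonoidAlgebra.coeff_single, Finsupp.single_apply,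
    Finsupp.single_apply]
  split_ifs with h
  · rw [h]
  · rw [mul_zero]

/-- the divided derivatives as additive maps -/
theorem hs_add {A : Type} [CommRing A] (l : ℕ) (p q : PowerSeries A) :
    hs l (p + q) = hs l p + hs l q := by
  ext n
  simp only [hs, coeff_mk, map_add]
  ring

theorem hs_zero {A : Type} [CommRing A] (l : ℕ) : hs l (0 : PowerSeries A) = 0 := by
  ext n
  simp only [hs, coeff_mk, map_zero, mul_zero]

theorem hs_C_mul {A : Type} [CommRing A] (l : ℕ) (c : A) (p : PowerSeries A) :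
    hs l (C c * p) = C c * hs l p := by
  ext n
  simp only [hs, coeff_mk, coeff_C_mul]
  ring

theorem hs_binom {A : Type} [CommRing A] (l : ℕ) (m : ℤ) :
    hs l (binomialSeries A m) = C ((Ring.choose m l : ℤ) : A) * binomialSeries A (m - l) := by
  ext n
  simp only [hs, coeff_mk, coeff_C_mul, binomialSeries_coeff, zsmul_one]
  have h := Ring.choose_smul_choose m (Nat.le_add_left l n)
  rw [Nat.add_sub_cancel, nsmul_eq_mul] at h
  have h2 := congrArg (fun z : ℤ => (z : A)) h
  simp only [Int.cast_mul, Int.cast_natCast] at h2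
  exact h2

theorem ph_dl (ξ : Kˣ) (l : ℕ) (p : LP K) :
    ph ξ (dl l p) = (1 + X) ^ l * hs l (ph ξ p) := by
  induction p using AddMonoidAlgebra.induction_linear with
  | zero => rw [map_zero, map_zero, hs_zero, mul_zero]
  | add p q hp hq => rw [map_add, map_add, hp, hq, map_add, hs_add, mul_add]
  | single m c =>
    rw [dl_single, ph_single, ph_single, hs_C_mul, hs_binom, ← binomialSeries_nat (R := ℤ)]
    have e : binomialSeries K ((l : ℕ) : ℤ) * (C (c * ((ξ ^ m : Kˣ) : K)) *
        (C ((Ring.choose m l : ℤ) : K) * binomialSeries K (m - l))) =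
        (C (c * ((ξ ^ m : Kˣ) : K)) * C ((Ring.choose m l : ℤ) : K)) *
          (binomialSeries K ((l : ℕ) : ℤ) * binomialSeries K (m - l)) := by ring
    rw [e, ← binomialSeries_add, add_sub_cancel, ← map_mul]
    congr 2
    ring

/-- the coefficient of `t^b` of a power series over Hahn series -/
noncomputable def cb (b : Γ) : PowerSeries (HG Γ K) →+ PowerSeries K where
  toFun p := PowerSeries.mk fun n => (coeff n p).coeff b
  map_zero' := by
    ext n
    rw [coeff_mk, map_zero, map_zero, HahnSeries.coeff_zero]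
  map_add' p q := by
    ext n
    rw [coeff_mk, map_add, map_add, coeff_mk, coeff_mk, HahnSeries.coeff_add]

theorem coeff_cb (b : Γ) (p : PowerSeries (HG Γ K)) (n : ℕ) :
    coeff n (cb b p) = (coeff n p).coeff b := by
  show coeff n (PowerSeries.mk fun n => (coeff n p).coeff b) = _
  rw [coeff_mk]

theorem cb_ext {p q : PowerSeries (HG Γ K)} (h : ∀ b, cb b p = cb b q) : p = q := by
  ext n b
  have := congrArg (coeff n) (h b)
  rwa [coeff_cb, coeff_cb] at this

theorem natCast_mul_coeff (k : ℕ) (x : HG Γ K) (b : Γ) : ((k : HG Γ K) * x).coeff b = (k : K) * x.coeff b := by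
  rw [← nsmul_eq_mul, HahnSeries.coeff_nsmul, Pi.smul_apply, nsmul_eq_mul]

theorem cb_hs (b : Γ) (l : ℕ) (p : PowerSeries (HG Γ K)) : cb b (hs l p) = hs l (cb b p) := by
  ext n
  rw [coeff_cb, hs, coeff_mk, natCast_mul_coeff, hs, coeff_mk, coeff_cb]

theorem cb_pow_mul (b : Γ) (l : ℕ) (p : PowerSeries (HG Γ K)) :
    cb b ((1 + X) ^ l * p) = (1 + X) ^ l * cb b p := by
  induction l with
  | zero => rw [pow_zero, pow_zero, one_mul, one_mul]
  | succ l ih =>
    have h1 : ∀ q : PowerSeries (HG Γ K), cb b ((1 + X) * q) = (1 + X) * cb b q := by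
      intro q
      rw [add_mul, one_mul, map_add, add_mul, one_mul]
      congr 1
      ext n
      rw [coeff_cb]
      rcases n with _ | n
      · rw [coeff_zero_X_mul, coeff_zero_X_mul, HahnSeries.coeff_zero]
      · rw [coeff_succ_X_mul, coeff_succ_X_mul, coeff_cb]
    rw [pow_succ', mul_assoc, h1, ih, pow_succ', mul_assoc]

theorem cb_T (a : Pt Γ K) (f : Ent Γ K) (b : Γ) : cb b (T a f) = ph a.2 ((f.1 a.v).coeff b) := by
  ext n
  rw [coeff_cb, coeff_T]

/-- `ph ξ` is injective -/
theorem ph_inj (ξ : Kˣ) (p : LP K) (hp : ph ξ p = 0) : p = 0 := by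
  classical
  by_contra hne
  have hsupp : p.coeff.support.Nonempty := by
    rw [Finsupp.support_nonempty_iff]
    intro h
    exact hne (AddMonoidAlgebra.coeff_eq_zero.1 h)
  set lo := p.coeff.support.min' hsupp with hlo
  set q : LP K := AddMonoidAlgebra.single (-lo) 1 * p with hq
  have hphq : ph ξ q = 0 := by rw [hq, map_mul, hp, mul_zero]
  have hqc : ∀ m, q.coeff m = p.coeff (m + lo) := by
    intro m
    rw [hq, AddMonoidAlgebra.coeff_single_mul_apply, one_mul]
    congr 1
    ring
  have hqne : q.coeff.support.Nonempty := by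
    rw [Finsupp.support_nonempty_iff]
    intro h
    have h1 := hqc 0
    rw [h, zero_add] at h1
    have h2 := Finset.min'_mem _ hsupp
    rw [← hlo, Finsupp.mem_support_iff] at h2
    exact h2 h1.symm
  have hq0 : ∀ m ∈ q.coeff.support, 0 ≤ m := by
    intro m hm
    rw [Finsupp.mem_support_iff, hqc] at hm
    have := Finset.min'_le _ _ (Finsupp.mem_support_iff.2 hm)
    rw [← hlo] at this
    linarith
  set hi := q.coeff.support.max' hqne with hhi
  have hhim := Finset.max'_mem _ hqne
  rw [← hhi] at hhim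
  have hhi0 := hq0 hi hhim
  obtain ⟨d, hd⟩ := Int.eq_ofNat_of_zero_le hhi0
  have h1 : coeff d (ph ξ q) = q.coeff hi * ((ξ ^ hi : Kˣ) : K) := by
    have e1 : q = q.coeff.sum AddMonoidAlgebra.single := (AddMonoidAlgebra.sum_coeff_single q).symm
    have e2 : coeff d (ph ξ q) = q.coeff.sum fun m c =>
        c * ((ξ ^ m : Kˣ) : K) * ((Ring.choose m d : ℤ) : K) := by
      conv_lhs => rw [e1]
      rw [Finsupp.sum, map_sum, map_sum]
      exact Finset.sum_congr rfl fun m _ => coeff_ph_single ξ m _ d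
    rw [e2, Finsupp.sum, Finset.sum_eq_single hi]
    · rw [hd, Ring.choose_natCast, Nat.choose_self, Nat.cast_one, Int.cast_one, mul_one]
    · intro m hm hne'
      have h3 := hq0 m hm
      have h4 := Finset.le_max' _ m hm
      rw [← hhi] at h4
      obtain ⟨k, hk⟩ := Int.eq_ofNat_of_zero_le h3
      have h5 : k < d := by omega
      rw [hk, Ring.choose_natCast, Nat.choose_eq_zero_of_lt h5, Nat.cast_zero, Int.cast_zero,
        mul_zero]
    · intro h
      exact absurd hhim h
  rw [hphq, map_zero] at h1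
  rcases mul_eq_zero.1 h1.symm with h2 | h2
  · exact (Finsupp.mem_support_iff.1 hhim) h2
  · exact (Units.ne_zero _) h2

theorem T_inj (a : Pt Γ K) : Function.Injective (T a) := by
  rw [injective_iff_map_eq_zero]
  intro f hf
  have h1 : ∀ b, (f.1 a.v).coeff b = 0 := by
    intro b
    apply ph_inj a.2
    rw [← cb_T, hf, map_zero]
  apply Subtype.ext
  funext s
  apply cf_ext
  intro b m
  have h2 : cf (f.1 0) (b - m • s) m = 0 := by
    have h3 := Ent.rel f a.v (b - m • s + m • a.v) m
    rw [add_sub_cancel_right] at h3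
    rw [← h3, cf, h1]
    rfl
  rw [Ent.rel f s b m, h2]
  exact (cf_zero b m).symm

theorem cb_T_mono (a : Pt Γ K) (k : ℤ) (b : Γ) : cb b (T a (mono k)) =
    if b = k • a.v then C ((a.2 ^ k : Kˣ) : K) * binomialSeries K k else 0 := by
  rw [cb_T]
  have h : (((mono k : Ent Γ K)).1 a.v).coeff b =
      if b = k • a.v then AddMonoidAlgebra.single k 1 else 0 := by
    show (HahnSeries.single (k • a.v) (AddMonoidAlgebra.single k (1 : K) : LP K)).coeff b = _
    classical
    rw [HahnSeries.coeff_single]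
    split_ifs <;> rfl
  rw [h]
  split_ifs
  · rw [ph_single, one_mul]
  · rw [map_zero]

theorem coeff_zero_T_mono (a : Pt Γ K) (k : ℤ) : coeff 0 (T a (mono k)) = cc (a ^ k) := by
  ext b
  have h1 : (coeff 0 (T a (mono k))).coeff b = coeff 0 (cb b (T a (mono k))) := (coeff_cb _ _ _).symm
  rw [h1, cb_T_mono, cc, HahnSeries.coeff_single]
  have h2 : (a ^ k).v = k • a.v := rfl
  have h3 : (a ^ k).2 = a.2 ^ k := rfl
  rw [h2, h3]
  split_ifs
  · rw [coeff_C_mul, binomialSeries_coeff, Ring.choose_zero_right, one_smul, mul_one]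
  · rw [map_zero]

theorem cc_ne_zero (a : Pt Γ K) : cc a ≠ 0 := by
  unfold cc
  rw [Ne, HahnSeries.single_eq_zero_iff]
  exact a.2.ne_zero

theorem isUnit_T_mono (a : Pt Γ K) (k : ℤ) : IsUnit (T a (mono k)) := by
  rw [isUnit_iff_constantCoeff, ← coeff_zero_eq_constantCoeff_apply, coeff_zero_T_mono]
  exact isUnit_iff_ne_zero.2 (cc_ne_zero _)

theorem T_shift (a : Pt Γ K) (P : Γ) (f : Ent Γ K) : T (a * qq P) f = T a (sg P f) := by
  apply cb_ext
  intro b
  rw [cb_T, cb_T, sg_val]
  have h1 : (a * qq P).v = a.v + P := rfl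
  have h2 : (a * qq P).2 = a.2 := by
    show a.2 * 1 = a.2
    rw [mul_one]
  rw [h1, h2]

theorem T_Dl (a : Pt Γ K) (l : ℕ) (f : Ent Γ K) : T a (Dl l f) = (1 + X) ^ l * hs l (T a f) := by
  apply cb_ext
  intro b
  rw [cb_pow_mul, cb_hs, cb_T, cb_T]
  exact ph_dl a.2 l ((f.1 a.v).coeff b)

theorem coeff_zero_T_Dl (a : Pt Γ K) (l : ℕ) (f : Ent Γ K) :
    coeff 0 (T a (Dl l f)) = coeff l (T a f) := by
  rw [T_Dl, coeff_zero_eq_constantCoeff_apply, map_mul, map_pow, map_add, map_one,
    constantCoeff_X, add_zero, one_pow, one_mul, ← coeff_zero_eq_constantCoeff_apply, hs, coeff_mk,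
    zero_add, Nat.choose_self, Nat.cast_one, one_mul]

theorem dl_mul (l : ℕ) (p q : LP K) : dl l (p * q) =
    ∑ ij ∈ Finset.HasAntidiagonal.antidiagonal l, dl ij.1 p * dl ij.2 q := by
  induction p using AddMonoidAlgebra.induction_linear with
  | zero =>
    rw [zero_mul, map_zero]
    symm
    exact Finset.sum_eq_zero fun ij _ => by rw [map_zero, zero_mul]
  | add p p' hp hp' =>
    rw [add_mul, map_add, hp, hp', ← Finset.sum_add_distrib]
    exact Finset.sum_congr rfl fun ij _ => by rw [map_add, add_mul]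
  | single m c =>
    induction q using AddMonoidAlgebra.induction_linear with
    | zero =>
      rw [mul_zero, map_zero]
      symm
      exact Finset.sum_eq_zero fun ij _ => by rw [map_zero, mul_zero]
    | add q q' hq hq' =>
      rw [mul_add, map_add, hq, hq', ← Finset.sum_add_distrib]
      exact Finset.sum_congr rfl fun ij _ => by rw [map_add, mul_add]
    | single m' c' =>
      rw [AddMonoidAlgebra.single_mul_single, dl_single, Ring.add_choose_eq l (Commute.all m m')]
      have h1 : ∀ ij ∈ Finset.HasAntidiagonal.antidiagonal l,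
          dl ij.1 (AddMonoidAlgebra.single m c) * dl ij.2 (AddMonoidAlgebra.single m' c') =
          AddMonoidAlgebra.single (m + m')
            (((Ring.choose m ij.1 : ℤ) : K) * ((Ring.choose m' ij.2 : ℤ) : K) * (c * c')) := by
        intro ij _
        rw [dl_single, dl_single, AddMonoidAlgebra.single_mul_single]
        congr 1
        ring
      rw [Finset.sum_congr rfl h1]
      have h2 : ∀ (S : Finset (ℕ × ℕ)) (g : ℕ × ℕ → K),
          ∑ ij ∈ S, (AddMonoidAlgebra.single (m + m') (g ij) : LP K) =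
            AddMonoidAlgebra.single (m + m') (∑ ij ∈ S, g ij) := by
        intro S g
        exact (map_sum (AddMonoidAlgebra.singleAddHom (R := K) (m + m')) g S).symm
      rw [h2, ← Finset.sum_mul]
      congr 2
      rw [Int.cast_sum]
      exact Finset.sum_congr rfl fun ij _ => by rw [Int.cast_mul]

/-- all the `dl l` together -/
noncomputable def EE : LP K →+* PowerSeries (LP K) where
  toFun p := PowerSeries.mk fun l => dl l p
  map_one' := by
    ext n m
    rw [coeff_mk, coeff_dl, coeff_one]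
    have h1 := cf_one (Γ := ℤ) (K := K) 0 m
    rw [cf, HahnSeries.coeff_one, if_pos rfl] at h1
    rw [h1]
    by_cases hm : m = 0
    · rw [if_pos ⟨rfl, hm⟩, hm, mul_one, Ring.choose_zero_ite]
      split_ifs
      · rw [← hm, h1, if_pos ⟨rfl, hm⟩, Int.cast_one]
      · rw [Int.cast_zero]; rfl
    · rw [if_neg (fun h => hm h.2), mul_zero]
      split_ifs
      · rw [h1, if_neg (fun h => hm h.2)]
      · rfl
  map_mul' p q := by
    ext1 n
    rw [coeff_mk, dl_mul, coeff_mul]
    exact Finset.sum_congr rfl fun ij _ => by rw [coeff_mk, coeff_mk]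
  map_zero' := by
    ext1 n
    rw [coeff_mk, map_zero, map_zero]
  map_add' p q := by
    ext1 n
    rw [coeff_mk, map_add, map_add, coeff_mk, coeff_mk]

theorem coeff_hat_EE (x : HL Γ K) (n : ℕ) : coeff n (hat EE x) = x.map (dl n) := by
  ext1
  funext b
  rw [coeff_hat]
  show coeff n (PowerSeries.mk fun l => dl l (x.coeff b)) = dl n (x.coeff b)
  rw [coeff_mk]

/-- the value on the circle `s` -/
noncomputable def evs (s : Γ) : Ent Γ K →+* HL Γ K :=
  (Pi.evalRingHom (fun _ => HL Γ K) s).comp (Ent Γ K).subtype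

theorem evs_apply (s : Γ) (f : Ent Γ K) : evs s f = f.1 s := rfl

theorem Dl_mul (l : ℕ) (f g : Ent Γ K) :
    Dl l (f * g) = ∑ ij ∈ Finset.HasAntidiagonal.antidiagonal l, Dl ij.1 f * Dl ij.2 g := by
  apply Subtype.ext
  funext s
  rw [← evs_apply, ← evs_apply, map_sum]
  have h1 : evs s (Dl l (f * g)) = coeff l (hat EE (evs s f * evs s g)) := by
    rw [coeff_hat_EE]
    rfl
  rw [h1, map_mul, coeff_mul]
  refine Finset.sum_congr rfl fun ij _ => ?_
  rw [coeff_hat_EE, coeff_hat_EE, map_mul]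
  rfl

theorem Dl_zero (f : Ent Γ K) : Dl 0 f = f := by
  apply Subtype.ext
  funext s
  apply cf_ext
  intro b m
  rw [cf_Dl, Ring.choose_zero_right, Int.cast_one, one_mul]

theorem taylor : S_T := by
  intro Γ K _ _ _ _ _
  exact ⟨T_inj, fun a k => ⟨isUnit_T_mono a k, coeff_zero_T_mono a k⟩, T_shift, T_Dl,
    coeff_zero_T_Dl, Dl_mul, Dl_zero⟩

end Pool.Agent.H390.TH
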