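import Pool.Agent.H390.TH.TAYLOR

set_option autoImplicit false

namespace Pool.Agent.H390.TH

open Pool.Agent.H369.TH PowerSeries

variable {Γ K : Type} [AddCommGroup Γ] [LinearOrder Γ] [IsOrderedAddMonoid Γ] [Field K]

theorem coeff_ph (ξ : Kˣ) (p : LP K) (n : ℕ) : coeff n (ph ξ p) =
    ∑ᶠ m : ℤ, p.coeff m * ((ξ ^ m : Kˣ) : K) * ((Ring.choose m n : ℤ) : K) := by
  have e2 : coeff n (ph ξ p) = p.coeff.sum fun m c =>
      c * ((ξ ^ m : Kˣ) : K) * ((Ring.choose m n : ℤ) : K) := by
    conv_lhs => rw [← AddMonoidAlgebra.sum_coeff_single p]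
    rw [Finsupp.sum, map_sum, map_sum]
    exact Finset.sum_congr rfl fun m _ => coeff_ph_single ξ m _ n
  rw [e2, Finsupp.sum, finsum_eq_sum_of_support_subset (s := p.coeff.support)]
  intro m hm
  rw [Function.mem_support] at hm
  rw [Finset.mem_coe, Finsupp.mem_support_iff]
  intro h
  exact hm (by rw [h, zero_mul, zero_mul])

open Classical in
theorem cT {P : Γ} (hP : Big P) (a b : Pt Γ K) (n : ℕ) (β : Γ) :
    (coeff n (T b (theta P a))).coeff β =
      ∑ᶠ m : ℤ, (if (m * (m - 1) / 2) • P - m • a.v + m • b.v = β then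
        (((-1) ^ m * a.2 ^ (-m) : Kˣ) : K) else 0) * ((b.2 ^ m : Kˣ) : K) *
          ((Ring.choose m n : ℤ) : K) := by
  rw [coeff_T, coeff_ph]
  refine finsum_congr fun m => ?_
  have h := cf_mkE (Γ := Γ) (fun m => (((-1) ^ m * a.2 ^ (-m) : Kˣ) : K))
    (fun m => (m * (m - 1) / 2) • P - m • a.v) (big_aux hP a) b.v β m
  rw [← theta_eq hP a, cf] at h
  rw [h]

theorem P_pos {P : Γ} (hP : Big P) : 0 < P := by
  by_contra hcon
  push Not at hcon
  have h1 := hP 0 0
  have h2 : {m : ℤ | (m * (m - 1) / 2) • P + m • (0 : Γ) ≤ 0} = Set.univ := by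
    ext m
    simp only [smul_zero, add_zero, Set.mem_ofPred_eq, Set.mem_univ, iff_true]
    have h3 : 0 ≤ m * (m - 1) / 2 := by
      apply Int.ediv_nonneg _ (by norm_num)
      rcases le_or_gt m 0 with h | h
      · nlinarith
      · nlinarith
    exact smul_nonpos_of_nonneg_of_nonpos h3 hcon
  rw [h2] at h1
  exact Set.infinite_univ h1

theorem tri_sub (m : ℤ) : (1 - m) * (1 - m - 1) / 2 = m * (m - 1) / 2 := by
  congr 1
  ring

theorem tri_succ (m : ℤ) : (m + 1) * (m + 1 - 1) / 2 = m * (m - 1) / 2 + m := by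
  have h : (m + 1) * (m + 1 - 1) = m * (m - 1) + m * 2 := by ring
  rw [h, Int.add_mul_ediv_right _ _ (by norm_num)]

theorem two_tri (m : ℤ) : 2 * (m * (m - 1) / 2) = m * (m - 1) := by
  have h : Even (m * (m - 1)) := Int.even_mul_pred_self m
  exact Int.two_mul_ediv_two_of_even h

theorem tri_add (m j : ℤ) : (m + j) * (m + j - 1) / 2 =
    m * (m - 1) / 2 + j * m + j * (j - 1) / 2 := by
  have h1 := two_tri m
  have h2 := two_tri j
  have h3 := two_tri (m + j)
  have h4 : (m + j) * (m + j - 1) = m * (m - 1) + 2 * (j * m) + j * (j - 1) := by ring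
  linarith

theorem theta_mem {P : Γ} (hP : Big P) (a : Pt Γ K) : theta P a ∈ Th P 1 (ng a) := by
  classical
  rw [mem_Th]
  apply Subtype.ext
  funext s
  apply cf_ext
  intro b m
  have hcf := cf_mkE (Γ := Γ) (fun m => (((-1) ^ m * a.2 ^ (-m) : Kˣ) : K))
    (fun m => (m * (m - 1) / 2) • P - m • a.v) (big_aux hP a)
  rw [← theta_eq hP a] at hcf
  have hmul : ∀ (g : Γ) (k : ℤ) (r : K) (u : HL Γ K) (b : Γ) (m : ℤ),
      cf (HahnSeries.single g (AddMonoidAlgebra.single k r : LP K) * u) b m =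
        r * cf u (b - g) (m - k) := by
    intro g k r u b m
    have e : b = (b - g) + g := by rw [sub_add_cancel]
    conv_lhs => rw [e]
    rw [cf, HahnSeries.coeff_single_mul_add, AddMonoidAlgebra.coeff_single_mul_apply, cf]
    congr 2
    ring
  have hincl : incl (cc (ng a)) = HahnSeries.single a.v (AddMonoidAlgebra.single (0 : ℤ) (-(a.2 : K)) : LP K) := by
    apply cf_ext
    intro b' m'
    have hv : (ng a).v = a.v := by
      show Multiplicative.toAdd ((ng1 (Γ := Γ) (K := K)).1 * a.1) = Multiplicative.toAdd a.1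
      rw [show (ng1 (Γ := Γ) (K := K)).1 = 1 from rfl, one_mul]
    have h2 : (((ng a).2 : Kˣ) : K) = -(a.2 : K) := by
      show (((ng1 (Γ := Γ) (K := K)).2 * a.2 : Kˣ) : K) = _
      rw [show (ng1 (Γ := Γ) (K := K)).2 = -1 from rfl, Units.val_mul, Units.val_neg, Units.val_one,
        neg_one_mul]
    rw [cf_incl, cc, hv, h2, HahnSeries.coeff_single, cf, HahnSeries.coeff_single]
    by_cases hb : b' = a.v
    · rw [if_pos hb, if_pos hb, AddMonoidAlgebra.coeff_single, Finsupp.single_apply]
      by_cases hm : m' = 0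
      · rw [if_pos hm, if_pos hm.symm]
      · rw [if_neg hm, if_neg (fun h => hm h.symm)]
    · rw [if_neg hb, if_neg hb]
      split_ifs <;> rfl
  have hR : cf ((cst (cc (ng a)) * mono (-1) * theta P a : Ent Γ K).1 s) b m =
      -(a.2 : K) * cf ((theta P a).1 s) (b - a.v + s) (m + 1) := by
    have e1 : (cst (cc (ng a)) * mono (-1) * theta P a : Ent Γ K).1 s =
        HahnSeries.single a.v (AddMonoidAlgebra.single (0 : ℤ) (-(a.2 : K)) : LP K) *
          (HahnSeries.single ((-1 : ℤ) • s) (AddMonoidAlgebra.single (-1) 1 : LP K) *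
            (theta P a).1 s) := by
      rw [← hincl, mul_assoc]
      rfl
    rw [e1, hmul, hmul, one_mul]
    congr 2
    · rw [neg_smul, one_smul, sub_neg_eq_add]
    · ring
  rw [hR, sg_val, hcf, hcf]
  have hc : ((m * (m - 1) / 2) • P - m • a.v + m • (s + P) = b) ↔
      (((m + 1) * (m + 1 - 1) / 2) • P - (m + 1) • a.v + (m + 1) • s = b - a.v + s) := by
    rw [tri_succ]
    have e2 : (m * (m - 1) / 2 + m) • P - (m + 1) • a.v + (m + 1) • s =
        ((m * (m - 1) / 2) • P - m • a.v + m • (s + P)) + (-a.v + s) := by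
      rw [add_smul, add_smul, add_smul, smul_add, one_smul, one_smul]
      abel
    rw [e2, show b - a.v + s = b + (-a.v + s) by abel, add_left_inj]
  by_cases h : (m * (m - 1) / 2) • P - m • a.v + m • (s + P) = b
  · rw [if_pos h, if_pos (hc.1 h)]
    have hu : ((-1 : Kˣ) ^ m * a.2 ^ (-m)) = (-a.2) * ((-1) ^ (m + 1) * a.2 ^ (-(m + 1))) := by
      have e1 : (-1 : Kˣ) ^ (m + 1) = -((-1) ^ m) := by rw [zpow_add_one, mul_neg_one]
      have e2 : a.2 ^ (-(m + 1)) = a.2 ^ (-m) * a.2⁻¹ := by rw [neg_add, zpow_add, zpow_neg_one]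
      rw [e1, e2, neg_mul, neg_mul, mul_neg, neg_neg, mul_comm a.2, mul_assoc, mul_assoc,
        inv_mul_cancel, mul_one]
    rw [hu, Units.val_mul, Units.val_neg]
  · rw [if_neg h, if_neg (fun h' => h (hc.2 h')), mul_zero]

theorem theta_ne_zero {P : Γ} (hP : Big P) (a : Pt Γ K) : theta P a ≠ 0 := by
  classical
  intro h
  have hcf := cf_mkE (Γ := Γ) (fun m => (((-1) ^ m * a.2 ^ (-m) : Kˣ) : K))
    (fun m => (m * (m - 1) / 2) • P - m • a.v) (big_aux hP a) 0 0 0
  rw [← theta_eq hP a, h] at hcf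
  have h1 : cf ((0 : Ent Γ K).1 0) 0 0 = 0 := cf_zero 0 0
  rw [h1] at hcf
  simp at hcf

theorem theta_zero [CharZero K] {P : Γ} (hP : Big P) (a : Pt Γ K) :
    coeff 0 (T a (theta P a)) = 0 := by
  classical
  ext β
  rw [cT hP, HahnSeries.coeff_zero]
  set g : ℤ → K := fun m => (if (m * (m - 1) / 2) • P - m • a.v + m • a.v = β then
        (((-1) ^ m * a.2 ^ (-m) : Kˣ) : K) else 0) * ((a.2 ^ m : Kˣ) : K) *
          ((Ring.choose m 0 : ℤ) : K) with hg
  have hg' : ∀ m, g m = if (m * (m - 1) / 2) • P = β then (((-1) ^ m : Kˣ) : K) else 0 := by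
    intro m
    simp only [hg]
    rw [Ring.choose_zero_right, Int.cast_one, mul_one, sub_add_cancel, ite_mul, zero_mul,
      ← Units.val_mul, mul_assoc, ← zpow_add, neg_add_cancel, zpow_zero, mul_one]
  have h1 : ∀ m, g (1 - m) = -g m := by
    intro m
    rw [hg', hg', tri_sub]
    split_ifs
    · rw [sub_eq_add_neg, zpow_add, zpow_one, neg_one_mul, Units.val_neg]
      congr 2
      rw [zpow_neg, ← inv_zpow, inv_neg_one]
    · rw [neg_zero]
  have h2 : ∑ᶠ m : ℤ, g m = -∑ᶠ m : ℤ, g m := by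
    conv_lhs => rw [← finsum_comp_equiv (Equiv.subLeft (1 : ℤ))]
    rw [← finsum_neg_distrib]
    refine finsum_congr fun m => ?_
    rw [Equiv.subLeft_apply]
    exact h1 m
  have h3 : (2 : K) * ∑ᶠ m : ℤ, g m = 0 := by
    rw [two_mul]
    nth_rw 1 [h2]
    rw [neg_add_cancel]
  exact (mul_eq_zero.1 h3).resolve_left two_ne_zero

theorem theta_one [CharZero K] {P : Γ} (hP : Big P) (a : Pt Γ K) :
    coeff 1 (T a (theta P a)) ≠ 0 := by
  classical
  intro h
  have h1 := congrArg (fun x : HG Γ K => x.coeff 0) h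
  simp only [HahnSeries.coeff_zero] at h1
  rw [cT hP, finsum_eq_sum_of_support_subset (s := {0, 1})] at h1
  · rw [Finset.sum_pair (by norm_num)] at h1
    simp at h1
  · intro m hm
    rw [Function.mem_support] at hm
    by_cases hc : (m * (m - 1) / 2) • P - m • a.v + m • a.v = 0
    · rw [sub_add_cancel] at hc
      have h3 : m * (m - 1) / 2 = 0 := by
        rcases smul_eq_zero.1 hc with h | h
        · exact h
        · exact absurd h (P_pos hP).ne'
      have h4 := two_tri m
      rw [h3, mul_zero] at h4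
      rcases mul_eq_zero.1 h4.symm with h | h
      · simp [h]
      · have : m = 1 := by linarith
        simp [this]
    · rw [if_neg hc, zero_mul, zero_mul] at hm
      exact absurd rfl hm

theorem theta_other [CharZero K] {P : Γ} (hP : Big P) (a b : Pt Γ K)
    (hab : ∀ k : ℤ, b ≠ a * qq P ^ k) : coeff 0 (T b (theta P a)) ≠ 0 := by
  classical
  have hP0 := P_pos hP
  set δ : Γ := b.v - a.v with hδ
  set w : ℤ → Γ := fun m => (m * (m - 1) / 2) • P + m • δ with hw
  -- differences
  have hdiff : ∀ m j : ℤ, w (m + j) = w m + j • (m • P + δ) + (j * (j - 1) / 2) • P := by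
    intro m j
    simp only [hw]
    rw [tri_add, add_smul, add_smul, add_smul, smul_add, ← mul_smul]
    abel
  -- a minimiser
  have hfin : {m : ℤ | w m ≤ w 0}.Finite := hP δ (w 0)
  obtain ⟨m1, hm1, hmin⟩ := Set.exists_min_image {m : ℤ | w m ≤ w 0} w hfin ⟨0, le_refl _⟩
  have hmin' : ∀ m, w m1 ≤ w m := by
    intro m
    by_cases h : w m ≤ w 0
    · exact hmin m h
    · push Not at h
      exact (hm1.trans h.le)
  have hr : 0 ≤ m1 • P + δ := by
    have h1 := hmin' (m1 + 1)
    rw [hdiff m1 1, one_smul, show (1 : ℤ) * (1 - 1) / 2 = 0 by norm_num, zero_smul, add_zero] at h1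
    exact le_of_add_le_add_left (by rw [add_zero]; exact h1)
  have hl : (m1 - 1) • P + δ ≤ 0 := by
    have h1 := hmin' (m1 - 1)
    have h2 := hdiff (m1 - 1) 1
    rw [one_smul, show (1 : ℤ) * (1 - 1) / 2 = 0 by norm_num, zero_smul, add_zero,
      sub_add_cancel] at h2
    rw [h2] at h1
    have h3 : w (m1 - 1) + ((m1 - 1) • P + δ) ≤ w (m1 - 1) + 0 := by rw [add_zero]; exact h1
    exact le_of_add_le_add_left h3
  -- the good minimiser
  obtain ⟨m0, hm0r, hm0l⟩ : ∃ m0 : ℤ, 0 ≤ m0 • P + δ ∧ (m0 - 1) • P + δ < 0 := by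
    rcases hl.lt_or_eq with h | h
    · exact ⟨m1, hr, h⟩
    · refine ⟨m1 - 1, h.ge, ?_⟩
      rw [sub_smul (m1 - 1) 1 P, one_smul, show (m1 - 1) • P - P + δ = ((m1 - 1) • P + δ) - P by abel, h,
        zero_sub]
      exact neg_lt_zero.2 hP0
  have hlt : ∀ j : ℤ, j < 0 → w m0 < w (m0 + j) := by
    intro j hj
    rw [hdiff, add_assoc]
    apply lt_add_of_pos_right
    have e : j • (m0 • P + δ) + (j * (j - 1) / 2) • P =
        (-j) • (-((m0 - 1) • P + δ)) + ((-j) * (-j - 1) / 2) • P := by
      have h1 : (-j) * (-j - 1) / 2 = j * (j - 1) / 2 + j := by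
        have h2 := two_tri (-j)
        have h3 := two_tri j
        linarith
      have hQ : (m0 - 1) • P + δ = (m0 • P + δ) - P := by
        rw [sub_smul, one_smul]
        abel
      rw [h1, hQ, neg_smul, smul_neg, neg_neg, smul_sub, add_smul]
      abel
    rw [e]
    have h1 : 0 < (-j) • (-((m0 - 1) • P + δ)) := by
      have h2 : 0 < -((m0 - 1) • P + δ) := neg_pos.2 hm0l
      exact zsmul_pos h2 (by omega)
    have h2 : 0 ≤ ((-j) * (-j - 1) / 2) • P := by
      apply zsmul_nonneg hP0.le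
      apply Int.ediv_nonneg _ (by norm_num)
      nlinarith
    exact add_pos_of_pos_of_nonneg h1 h2
  have hgt : ∀ j : ℤ, 1 < j → w m0 < w (m0 + j) := by
    intro j hj
    rw [hdiff, add_assoc]
    apply lt_add_of_pos_right
    have h1 : 0 ≤ j • (m0 • P + δ) := zsmul_nonneg hm0r (by omega)
    have h2 : 0 < (j * (j - 1) / 2) • P := by
      apply zsmul_pos hP0
      have h3 := two_tri j
      nlinarith
    exact add_pos_of_nonneg_of_pos h1 h2
  have h1s : w (m0 + 1) = w m0 + (m0 • P + δ) := by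
    rw [hdiff, one_smul, show (1 : ℤ) * (1 - 1) / 2 = 0 by norm_num, zero_smul, add_zero]
  have hset : ∀ m, w m = w m0 → m = m0 ∨ m = m0 + 1 := by
    intro m hm
    by_contra hcon
    push Not at hcon
    obtain ⟨c1, c2⟩ := hcon
    rcases lt_trichotomy m m0 with h | h | h
    · have := hlt (m - m0) (by omega)
      rw [add_sub_cancel, hm] at this
      exact absurd this (lt_irrefl _)
    · exact c1 h
    · have := hgt (m - m0) (by omega)
      rw [add_sub_cancel, hm] at this
      exact absurd this (lt_irrefl _)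
  intro hz
  have hz1 := congrArg (fun x : HG Γ K => x.coeff (w m0)) hz
  simp only [HahnSeries.coeff_zero] at hz1
  have hwe : ∀ m : ℤ, (m * (m - 1) / 2) • P - m • a.v + m • b.v = w m := by
    intro m
    simp only [hw, hδ]
    rw [smul_sub]
    abel
  rw [cT hP, finsum_eq_sum_of_support_subset (s := {m0, m0 + 1})] at hz1
  · rw [Finset.sum_pair (by omega), hwe, hwe, if_pos rfl] at hz1
    by_cases h0 : m0 • P + δ = 0
    · have hw1 : w (m0 + 1) = w m0 := by rw [h1s, h0, add_zero]
      rw [if_pos hw1] at hz1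
      simp only [Ring.choose_zero_right, Int.cast_one, mul_one] at hz1
      rw [← Units.val_mul, ← Units.val_mul] at hz1
      have h2 : (-1 : Kˣ) ^ (m0 + 1) * a.2 ^ (-(m0 + 1)) * b.2 ^ (m0 + 1) =
          -((-1 : Kˣ) ^ m0 * a.2 ^ (-m0) * b.2 ^ m0 * (a.2⁻¹ * b.2)) := by
        have e1 : (-1 : Kˣ) ^ (m0 + 1) = -((-1) ^ m0) := by rw [zpow_add_one, mul_neg_one]
        have e2 : a.2 ^ (-(m0 + 1)) = a.2 ^ (-m0) * a.2⁻¹ := by rw [neg_add, zpow_add, zpow_neg_one]
        rw [e1, e2, zpow_add_one, neg_mul, neg_mul]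
        congr 1
        simp only [mul_assoc]
        congr 2
        rw [mul_left_comm]
      have h8 : (((-1 : Kˣ) ^ m0 * a.2 ^ (-m0) * b.2 ^ m0 : Kˣ) : K) *
          (1 - ((a.2⁻¹ * b.2 : Kˣ) : K)) = 0 := by
        rw [mul_one_sub, ← Units.val_mul, sub_eq_add_neg, ← Units.val_neg, ← h2]
        exact hz1
      rcases mul_eq_zero.1 h8 with h3 | h3
      · exact Units.ne_zero _ h3
      · have h4 : ((a.2⁻¹ * b.2 : Kˣ) : K) = ((1 : Kˣ) : K) := by
          rw [Units.val_one]
          exact (sub_eq_zero.1 h3).symm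
        have h5 : a.2⁻¹ * b.2 = 1 := Units.ext h4
        have h6 : b.2 = a.2 := by
          rw [inv_mul_eq_one] at h5
          exact h5.symm
        apply hab (-m0)
        have hqv : ∀ k : ℤ, (qq P : Pt Γ K) ^ k = (Multiplicative.ofAdd (k • P), 1) := by
          intro k
          rw [qq]
          ext1
          · rfl
          · show (1 : Kˣ) ^ k = 1
            rw [one_zpow]
        rw [hqv]
        ext1
        · show b.1 = a.1 * Multiplicative.ofAdd ((-m0) • P)
          apply Multiplicative.toAdd.injective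
          rw [toAdd_mul, toAdd_ofAdd]
          show b.v = a.v + (-m0) • P
          have h7 : b.v - a.v = -(m0 • P) := by
            rw [← hδ]
            exact (neg_eq_of_add_eq_zero_right h0).symm
          rw [neg_smul, ← h7]
          abel
        · show b.2 = a.2 * 1
          rw [mul_one]
          exact h6
    · have hw1 : ¬ (w (m0 + 1) = w m0) := by
        intro h
        rw [h1s] at h
        exact h0 (by
          have : w m0 + (m0 • P + δ) = w m0 + 0 := by rw [add_zero]; exact h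
          exact add_left_cancel this)
      rw [if_neg hw1, zero_mul, zero_mul, add_zero, Ring.choose_zero_right, Int.cast_one, mul_one,
        ← Units.val_mul] at hz1
      exact Units.ne_zero _ hz1
  · intro m hm
    rw [Function.mem_support] at hm
    by_cases hc : (m * (m - 1) / 2) • P - m • a.v + m • b.v = w m0
    · rw [hwe] at hc
      rcases hset m hc with h | h
      · simp [h]
      · simp [h]
    · rw [if_neg hc, zero_mul, zero_mul] at hm
      exact absurd rfl hm

theorem thetaf : S_theta := by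
  intro Γ K _ _ _ _ _ P hP a
  exact ⟨theta_mem hP a, theta_ne_zero hP a, theta_zero hP a, theta_one hP a, theta_other hP a⟩

end Pool.Agent.H390.TH
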